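import Pool.Agent.Helper10.Qc.Stmts

set_option autoImplicit false

/-! Module UO: a box without reduced points. -/

namespace Pool.Agent.Helper10.Qc

open Pool.Agent.Helper19.Qh Pool.Agent.Helper19.Qc

theorem uo_force {α : Type} (n : ℕ) (f : ℕ → α) : force n f = f n := by
  cases n <;> rfl

theorem uo_cond {a c : Bool} (h : cond a true c = true) : a = true ∨ c = true := by
  cases a
  · exact Or.inr h
  · exact Or.inl rfl

theorem uo_norm_sq (a : Q) : ‖a‖ ^ 2 = a.re ^ 2 + a.imI ^ 2 + a.imJ ^ 2 + a.imK ^ 2 := by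
  rw [sq, ← Quaternion.normSq_eq_norm_mul_self, Quaternion.normSq_def']

theorem uo_sub (a b : ℕ) : (a : ℝ) - b ≤ ((Nat.sub a b : ℕ) : ℝ) := by
  have h : a ≤ Nat.sub a b + b := by
    have : Nat.sub a b = a - b := rfl
    omega
  have h2 : (a : ℝ) ≤ ((Nat.sub a b : ℕ) : ℝ) + b := by exact_mod_cast h
  linarith

theorem uo_s4 (a b c d : ℕ) : ((s4 a b c d : ℕ) : ℝ) = a + b + c + d := by
  have : s4 a b c d = (a + b) + (c + d) := rfl
  rw [this]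
  push_cast
  ring

theorem uo_dot4 (a b c d x y z w : ℕ) : ((dot4 a b c d x y z w : ℕ) : ℝ) =
    a * x + b * y + c * z + d * w := by
  have : dot4 a b c d x y z w = s4 (a * x) (b * y) (c * z) (d * w) := rfl
  rw [this, uo_s4]
  push_cast
  ring

theorem uo_df (p n : ℕ) : ((df p n : ℕ) : ℝ) ^ 2 = ((p : ℝ) - n) ^ 2 := by
  have h : df p n = (p - n) + (n - p) := rfl
  rcases le_total p n with h1 | h1
  · have h2 : df p n + p = n := by omega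
    have h3 : ((df p n : ℕ) : ℝ) + p = n := by exact_mod_cast h2
    have h4 : ((df p n : ℕ) : ℝ) = n - p := by linarith
    rw [h4]
    ring
  · have h2 : df p n + n = p := by omega
    have h3 : ((df p n : ℕ) : ℝ) + n = p := by exact_mod_cast h2
    have h4 : ((df p n : ℕ) : ℝ) = p - n := by linarith
    rw [h4]

theorem uo_nsq (a b c d o : ℕ) : ((nsq a b c d o : ℕ) : ℝ) =
    ((a : ℝ) - o) ^ 2 + ((b : ℝ) - o) ^ 2 + ((c : ℝ) - o) ^ 2 + ((d : ℝ) - o) ^ 2 := by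
  have : nsq a b c d o = s4 (df a o * df a o) (df b o * df b o) (df c o * df c o)
    (df d o * df d o) := rfl
  rw [this, uo_s4, ← uo_df a o, ← uo_df b o, ← uo_df c o, ← uo_df d o]
  push_cast
  ring

theorem uo_q (x y o p : ℕ) : ((qp x y o p : ℕ) : ℝ) - ((qn x y o p : ℕ) : ℝ) =
    ((x : ℝ) - o) * ((y : ℝ) - p) := by
  have h1 : qp x y o p = x * y + o * p := rfl
  have h2 : qn x y o p = o * y + p * x := rfl
  rw [h1, h2]
  push_cast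
  ring

/-- the smallest absolute value on an interval -/
theorem uo_min (a b : ℕ) (s : ℝ) (c : ℕ) (ha : (a : ℝ) ≤ s) (hb : s ≤ (b : ℝ)) :
    ((Nat.add (Nat.sub a c) (Nat.sub c b) : ℕ) : ℝ) ^ 2 ≤ (s - c) ^ 2 := by
  have hab : a ≤ b := by exact_mod_cast ha.trans hb
  have h : Nat.add (Nat.sub a c) (Nat.sub c b) = (a - c) + (c - b) := rfl
  rw [h]
  rcases le_total c a with h1 | h1
  · have h2 : (a - c) + (c - b) + c = a := by omega
    have h3 : (((a - c) + (c - b) : ℕ) : ℝ) + c = a := by exact_mod_cast h2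
    have h4 : (0 : ℝ) ≤ (((a - c) + (c - b) : ℕ) : ℝ) := Nat.cast_nonneg _
    nlinarith
  · rcases le_total b c with h5 | h5
    · have h2 : (a - c) + (c - b) + b = c := by omega
      have h3 : (((a - c) + (c - b) : ℕ) : ℝ) + b = c := by exact_mod_cast h2
      have h4 : (0 : ℝ) ≤ (((a - c) + (c - b) : ℕ) : ℝ) := Nat.cast_nonneg _
      nlinarith
    · have h2 : (a - c) + (c - b) = 0 := by omega
      rw [h2]
      simpa using sq_nonneg (s - c)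

theorem uo_minz (z l h : ℕ) (e : ℝ) (h1 : (l : ℝ) ≤ e) (h2 : e ≤ h) :
    ((minz z l h : ℕ) : ℝ) * ((minz z l h : ℕ) : ℝ) ≤ (64 * (z : ℝ) + e - 576) ^ 2 := by
  have h3 := uo_min (Nat.add (Nat.mul 64 z) l) (Nat.add (Nat.mul 64 z) h) (64 * (z : ℝ) + e) 576
    (by
      have : Nat.add (Nat.mul 64 z) l = 64 * z + l := rfl
      rw [this]; push_cast; linarith)
    (by
      have : Nat.add (Nat.mul 64 z) h = 64 * z + h := rfl
      rw [this]; push_cast; linarith)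
  have h4 : ((minz z l h : ℕ) : ℝ) ^ 2 ≤ (64 * (z : ℝ) + e - (576 : ℕ)) ^ 2 := h3
  rw [sq] at h4
  simpa using h4

theorem uo_mine (l h : ℕ) (e : ℝ) (h1 : (l : ℝ) ≤ e) (h2 : e ≤ h) :
    ((mine l h : ℕ) : ℝ) * ((mine l h : ℕ) : ℝ) ≤ (e - 64) ^ 2 := by
  have h3 := uo_min l h e 64 h1 h2
  have h4 : ((mine l h : ℕ) : ℝ) ^ 2 ≤ (e - (64 : ℕ)) ^ 2 := h3
  rw [sq] at h4
  simpa using h4

theorem uo_cor (z l h : ℕ) (e : ℝ) (h1 : (l : ℝ) ≤ e) (h2 : e ≤ h) :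
    ((z : ℝ) - 8) * (e - 64) ≤ ((z : ℝ) - 8) * (((cor z l h : ℕ) : ℝ) - 64) := by
  have hc : cor z l h = cond (Nat.ble 8 z) h l := rfl
  rw [hc]
  by_cases h8 : 8 ≤ z
  · have : Nat.ble 8 z = true := Nat.ble_eq.mpr h8
    rw [this]
    have h9 : (8 : ℝ) ≤ z := by exact_mod_cast h8
    exact mul_le_mul_of_nonneg_left (by simp only [cond_true]; linarith) (by linarith)
  · have : Nat.ble 8 z = false := by
      cases hb : Nat.ble 8 z
      · rfl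
      · exact absurd (Nat.ble_eq.mp hb) h8
    rw [this]
    have h9 : (z : ℝ) ≤ 8 := by exact_mod_cast (Nat.le_of_lt (not_le.mp h8))
    simp only [cond_false]
    nlinarith

/-- the upper bound of `2 ^ 20 (h + |ζ|²)` -/
theorem uo_maxX (z0 z1 z2 z3 c0 c1 c2 c3 h : ℕ) :
    2048 * (h : ℝ) + 4096 * (((z0 : ℝ) - 8) ^ 2 + ((z1 : ℝ) - 8) ^ 2 + ((z2 : ℝ) - 8) ^ 2 +
      ((z3 : ℝ) - 8) ^ 2) + 128 * (((z0 : ℝ) - 8) * ((c0 : ℝ) - 64) +
      ((z1 : ℝ) - 8) * ((c1 : ℝ) - 64) + ((z2 : ℝ) - 8) * ((c2 : ℝ) - 64) +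
      ((z3 : ℝ) - 8) * ((c3 : ℝ) - 64)) ≤ ((maxX z0 z1 z2 z3 c0 c1 c2 c3 h : ℕ) : ℝ) := by
  have h1 := uo_sub (2048 * h + (4096 * nsq z0 z1 z2 z3 8 +
      128 * s4 (qp z0 c0 8 64) (qp z1 c1 8 64) (qp z2 c2 8 64) (qp z3 c3 8 64)))
      (128 * s4 (qn z0 c0 8 64) (qn z1 c1 8 64) (qn z2 c2 8 64) (qn z3 c3 8 64))
  have h2 : maxX z0 z1 z2 z3 c0 c1 c2 c3 h = Nat.sub (2048 * h + (4096 * nsq z0 z1 z2 z3 8 +
      128 * s4 (qp z0 c0 8 64) (qp z1 c1 8 64) (qp z2 c2 8 64) (qp z3 c3 8 64)))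
      (128 * s4 (qn z0 c0 8 64) (qn z1 c1 8 64) (qn z2 c2 8 64) (qn z3 c3 8 64)) := rfl
  rw [h2]
  refine le_trans (le_of_eq ?_) h1
  have q0 := uo_q z0 c0 8 64
  have q1 := uo_q z1 c1 8 64
  have q2 := uo_q z2 c2 8 64
  have q3 := uo_q z3 c3 8 64
  push_cast at q0 q1 q2 q3
  push_cast [uo_s4, uo_nsq]
  linarith

/-- the test, real form -/
theorem uo_real1 (c x z X L q : ℝ) (hc : 0 < c) (hx0 : 0 ≤ x) (hxX : c * x ≤ X)
    (hq : q ≤ c * z) (hz : z ≤ 1 / 2) (h1 : 2 ≤ x ^ 2 + x) (hL : L + 2 * c ^ 2 = X * X + c * X)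
    (h5 : L * L < 4 * c ^ 2 * (q * (2 * c - q))) (hqc : q ≤ c) :
    (x ^ 2 + x - 2) ^ 2 < 4 * (z * (2 - z)) := by
  have hcx : 0 ≤ c * x := mul_nonneg hc.le hx0
  have hsq : (c * x) * (c * x) ≤ X * X := mul_self_le_mul_self hcx hxX
  have hcc : c * (c * x) ≤ c * X := mul_le_mul_of_nonneg_left hxX hc.le
  have h6 : c ^ 2 * (x ^ 2 + x - 2) ≤ L := by
    have : c ^ 2 * (x ^ 2 + x - 2) = (c * x) * (c * x) + c * (c * x) - 2 * c ^ 2 := by ring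
    rw [this]
    linarith
  have h7 : 0 ≤ x ^ 2 + x - 2 := by linarith
  have h7' : 0 ≤ c ^ 2 * (x ^ 2 + x - 2) := mul_nonneg (sq_nonneg c) h7
  have h8 : (c ^ 2 * (x ^ 2 + x - 2)) * (c ^ 2 * (x ^ 2 + x - 2)) ≤ L * L :=
    mul_self_le_mul_self h7' h6
  have h9 : q * (2 * c - q) ≤ c ^ 2 * (z * (2 - z)) := by
    have h10 : 0 ≤ (c * z - q) * (2 * c - q - c * z) := by
      apply mul_nonneg
      · linarith
      · have : c * z ≤ c * (1 / 2) := mul_le_mul_of_nonneg_left hz hc.le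
        linarith
    have h11 : c ^ 2 * (z * (2 - z)) - q * (2 * c - q) = (c * z - q) * (2 * c - q - c * z) := by ring
    linarith
  have h12 : 4 * c ^ 2 * (q * (2 * c - q)) ≤ 4 * c ^ 2 * (c ^ 2 * (z * (2 - z))) :=
    mul_le_mul_of_nonneg_left h9 (by positivity)
  have h13 : c ^ 4 * (x ^ 2 + x - 2) ^ 2 < c ^ 4 * (4 * (z * (2 - z))) := by
    have e1 : c ^ 4 * (x ^ 2 + x - 2) ^ 2 =
        (c ^ 2 * (x ^ 2 + x - 2)) * (c ^ 2 * (x ^ 2 + x - 2)) := by ring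
    have e2 : c ^ 4 * (4 * (z * (2 - z))) = 4 * c ^ 2 * (c ^ 2 * (z * (2 - z))) := by ring
    rw [e1, e2]
    linarith
  exact lt_of_mul_lt_mul_left h13 (by positivity)

/-- the third case, real form -/
theorem uo_real2 (c w z t q : ℝ) (hc : 0 < c) (hw0 : 0 ≤ w) (hq : q ≤ c * z)
    (r3 : 2 + 2 * z ≤ w ^ 2) (ht : c * w + (c * z - q) ≤ t)
    (h5 : t * t < 2 * c ^ 2 + 2 * c * q) : False := by
  have h1 : c * w ≤ t := by linarith
  have h2 : (c * w) * (c * w) ≤ t * t := mul_self_le_mul_self (mul_nonneg hc.le hw0) h1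
  have h3 : c ^ 2 * (2 + 2 * z) ≤ c ^ 2 * w ^ 2 := mul_le_mul_of_nonneg_left r3 (sq_nonneg c)
  have h4 : 2 * c * q ≤ 2 * c * (c * z) := mul_le_mul_of_nonneg_left hq (by positivity)
  have e1 : (c * w) * (c * w) = c ^ 2 * w ^ 2 := by ring
  have e2 : 2 * c * (c * z) = c ^ 2 * (2 * z) := by ring
  have e3 : c ^ 2 * (2 + 2 * z) = 2 * c ^ 2 + c ^ 2 * (2 * z) := by ring
  linarith

/-- unfolding of the test, with variables instead of large numbers -/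
theorem uo_t0 (X q a b c d : ℕ)
    (ht : cond (Nat.blt (Nat.add (Nat.mul X X) (Nat.mul a X)) b) true
      (force (Nat.sub (Nat.add (Nat.mul X X) (Nat.mul a X)) b) fun L =>
      cond (Nat.ble q a) (Nat.blt (Nat.mul L L) (Nat.mul c (Nat.mul q (Nat.sub d q)))) false) =
        true) :
    X * X + a * X < b ∨
      (q ≤ a ∧ (X * X + a * X - b) * (X * X + a * X - b) < c * (q * (d - q))) := by
  rcases uo_cond ht with ha | ha
  · exact Or.inl (Nat.blt_eq.mp ha)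
  · right
    rw [uo_force] at ha
    have hqb : Nat.ble q a = true := by
      cases hb : Nat.ble q a
      · rw [hb] at ha
        exact absurd ha (by simp)
      · rfl
    rw [hqb] at ha
    exact ⟨Nat.ble_eq.mp hqb, Nat.blt_eq.mp ha⟩

/-- the test -/
theorem uo_tst (X q : ℕ) (x z : ℝ) (hx0 : 0 ≤ x) (hxX : 1048576 * x ≤ X) (hq : (q : ℝ) ≤ 1048576 * z)
    (hz : z ≤ 1 / 2) (ht : tstX X q = true) (h1 : 2 ≤ x ^ 2 + x) :
    (x ^ 2 + x - 2) ^ 2 < 4 * (z * (2 - z)) := by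
  have hX0 : (0 : ℝ) ≤ X := Nat.cast_nonneg _
  have hq0 : (0 : ℝ) ≤ q := Nat.cast_nonneg _
  have hge : ¬ (X * X + 1048576 * X < 2199023255552) := by
    intro h2
    have h3 : (X : ℝ) * X + 1048576 * X < 2199023255552 := by exact_mod_cast h2
    have h4 : (1048576 * x) * (1048576 * x) ≤ (X : ℝ) * X :=
      mul_self_le_mul_self (by linarith) hxX
    have h5 : (1048576 * x) * (1048576 * x) + 1048576 * (1048576 * x) =
      1099511627776 * (x ^ 2 + x) := by ring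
    linarith
  rcases uo_t0 X q 1048576 2199023255552 4398046511104 2097152 ht with ha | ⟨hq1, h4⟩
  · exact absurd ha hge
  · obtain ⟨L, hL⟩ : ∃ L : ℕ, L = X * X + 1048576 * X - 2199023255552 := ⟨_, rfl⟩
    rw [← hL] at h4
    have hL2 : L + 2199023255552 = X * X + 1048576 * X := by omega
    have hL3 : (L : ℝ) + 2199023255552 = X * X + 1048576 * X := by exact_mod_cast hL2
    obtain ⟨r, hr⟩ : ∃ r : ℕ, r = 2097152 - q := ⟨_, rfl⟩
    rw [← hr] at h4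
    have hr2 : r + q = 2097152 := by omega
    have hr3 : (r : ℝ) + q = 2097152 := by exact_mod_cast hr2
    have h5 : (L : ℝ) * L < 4398046511104 * (q * r) := by exact_mod_cast h4
    have hr4 : (r : ℝ) = 2097152 - q := by linarith
    rw [hr4] at h5
    have hq1' : (q : ℝ) ≤ 1048576 := by exact_mod_cast hq1
    have e1 : (2 : ℝ) * 1048576 ^ 2 = 2199023255552 := by norm_num
    have e2 : (4 : ℝ) * 1048576 ^ 2 = 4398046511104 := by norm_num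
    have e3 : (2 : ℝ) * 1048576 = 2097152 := by norm_num
    exact uo_real1 1048576 x z X L q (by norm_num) hx0 hxX hq hz h1 (by rw [e1]; exact hL3)
      (by rw [e2, e3]; exact h5) hq1'

theorem uo_dom (ζ : Q) (h : Dom ζ) : ‖ζ‖ ^ 2 ≤ 1 / 2 := by
  rw [uo_norm_sq]
  obtain ⟨h1, h2, _, _⟩ := h
  have a := abs_nonneg ζ.imI
  have b := abs_nonneg ζ.imJ
  have c := abs_nonneg ζ.imK
  have h3 : (|ζ.imI| + |ζ.imJ| + |ζ.imK|) ^ 2 ≤ ζ.re ^ 2 :=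
    pow_le_pow_left₀ (by positivity) h2 2
  have h4 : ζ.re ^ 2 ≤ (1 / 2) ^ 2 := pow_le_pow_left₀ (by linarith) h1 2
  have h5 : ζ.imI ^ 2 + ζ.imJ ^ 2 + ζ.imK ^ 2 ≤ (|ζ.imI| + |ζ.imJ| + |ζ.imK|) ^ 2 := by
    rw [← sq_abs ζ.imI, ← sq_abs ζ.imJ, ← sq_abs ζ.imK]
    nlinarith [mul_nonneg a b, mul_nonneg a c, mul_nonneg b c]
  norm_num at h4 ⊢
  linarith

theorem st_UO (hOUT : ST_OUT) : ST_UO := by
  intro z0 z1 z2 z3 l0 h0 l1 h1 l2 h2 l3 h3 l h _ _ _ _ hout e Y hin hdom hh hred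
  obtain ⟨⟨a0, b0⟩, ⟨a1, b1⟩, ⟨a2, b2⟩, ⟨a3, b3⟩, ⟨_, hY⟩⟩ := hin
  have hdef : outU z0 z1 z2 z3 l0 h0 l1 h1 l2 h2 l3 h3 h =
    cond (out z0 z1 z2 z3 l0 h0 l1 h1 l2 h2 l3 h3) true
    (force (dot4 (minz z0 l0 h0) (minz z1 l1 h1) (minz z2 l2 h2) (minz z3 l3 h3)
      (minz z0 l0 h0) (minz z1 l1 h1) (minz z2 l2 h2) (minz z3 l3 h3)) fun q =>
     cond (tstX (maxX z0 z1 z2 z3 (cor z0 l0 h0) (cor z1 l1 h1) (cor z2 l2 h2) (cor z3 l3 h3) h) q)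
      true
      (force (Nat.sub (Nat.add 1048576 (Nat.sub (Nat.mul 2048 h)
        (dot4 (mine l0 h0) (mine l1 h1) (mine l2 h2) (mine l3 h3)
          (mine l0 h0) (mine l1 h1) (mine l2 h2) (mine l3 h3)))) q) fun t =>
        Nat.blt (Nat.mul t t) (Nat.add 2199023255552 (Nat.mul 2097152 q)))) := rfl
  rw [hdef] at hout
  rcases uo_cond hout with hc | hc
  · exact hOUT z0 z1 z2 z3 l0 h0 l1 h1 l2 h2 l3 h3 hc e ⟨a0, b0⟩ ⟨a1, b1⟩ ⟨a2, b2⟩ ⟨a3, b3⟩ hdom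
  rw [uo_force] at hc
  obtain ⟨q, hq⟩ : ∃ q : ℕ, q = dot4 (minz z0 l0 h0) (minz z1 l1 h1) (minz z2 l2 h2) (minz z3 l3 h3)
      (minz z0 l0 h0) (minz z1 l1 h1) (minz z2 l2 h2) (minz z3 l3 h3) := ⟨_, rfl⟩
  rw [← hq] at hc
  obtain ⟨ζ, hζ⟩ : ∃ ζ : Q, ζ = zE z0 z1 z2 z3 e := ⟨_, rfl⟩
  rw [← hζ] at hdom hred
  have hn : 1048576 * ‖ζ‖ ^ 2 = (64 * (z0 : ℝ) + e 0 - 576) ^ 2 + (64 * (z1 : ℝ) + e 1 - 576) ^ 2 +
      (64 * (z2 : ℝ) + e 2 - 576) ^ 2 + (64 * (z3 : ℝ) + e 3 - 576) ^ 2 := by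
    rw [uo_norm_sq, hζ]
    simp only [zE]
    ring
  have hqle : (q : ℝ) ≤ 1048576 * ‖ζ‖ ^ 2 := by
    rw [hn, hq, uo_dot4]
    have := uo_minz z0 l0 h0 (e 0) a0 b0
    have := uo_minz z1 l1 h1 (e 1) a1 b1
    have := uo_minz z2 l2 h2 (e 2) a2 b2
    have := uo_minz z3 l3 h3 (e 3) a3 b3
    linarith
  have hz := uo_dom ζ hdom
  obtain ⟨H, hH⟩ : ∃ H : ℝ, H = hU e Y / 2 ^ 22 := ⟨_, rfl⟩
  rw [← hH] at hh hred
  have hH2 : 1048576 * H = 2048 * Y - ((e 0 - 64) ^ 2 + (e 1 - 64) ^ 2 + (e 2 - 64) ^ 2 +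
      (e 3 - 64) ^ 2) := by
    rw [hH]
    simp only [hU]
    ring
  have hn0 : 0 ≤ ‖ζ‖ ^ 2 := sq_nonneg _
  obtain ⟨⟨r1, r2⟩, r3⟩ := hred
  rcases uo_cond hc with hd | hd
  · have hX : 1048576 * (H + ‖ζ‖ ^ 2) ≤
        ((maxX z0 z1 z2 z3 (cor z0 l0 h0) (cor z1 l1 h1) (cor z2 l2 h2) (cor z3 l3 h3) h : ℕ) : ℝ) := by
      refine le_trans ?_ (uo_maxX _ _ _ _ _ _ _ _ _)
      have := uo_cor z0 l0 h0 (e 0) a0 b0
      have := uo_cor z1 l1 h1 (e 1) a1 b1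
      have := uo_cor z2 l2 h2 (e 2) a2 b2
      have := uo_cor z3 l3 h3 (e 3) a3 b3
      have : 1048576 * (H + ‖ζ‖ ^ 2) = 2048 * Y + 4096 * (((z0 : ℝ) - 8) ^ 2 + ((z1 : ℝ) - 8) ^ 2 +
          ((z2 : ℝ) - 8) ^ 2 + ((z3 : ℝ) - 8) ^ 2) + 128 * (((z0 : ℝ) - 8) * (e 0 - 64) +
          ((z1 : ℝ) - 8) * (e 1 - 64) + ((z2 : ℝ) - 8) * (e 2 - 64) + ((z3 : ℝ) - 8) * (e 3 - 64)) := by
        rw [mul_add, hH2, hn]
        ring
      rw [this]
      linarith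
    have := uo_tst _ q (H + ‖ζ‖ ^ 2) (‖ζ‖ ^ 2) (by linarith) hX hqle hz hd r1
    linarith
  · rw [uo_force] at hd
    obtain ⟨m, hm⟩ : ∃ m : ℕ, m = dot4 (mine l0 h0) (mine l1 h1) (mine l2 h2) (mine l3 h3)
          (mine l0 h0) (mine l1 h1) (mine l2 h2) (mine l3 h3) := ⟨_, rfl⟩
    rw [← hm] at hd
    obtain ⟨t, ht⟩ : ∃ t : ℕ, t = Nat.sub (Nat.add 1048576 (Nat.sub (Nat.mul 2048 h) m)) q := ⟨_, rfl⟩
    rw [← ht] at hd
    have hd2 : t * t < 2199023255552 + 2097152 * q := Nat.blt_eq.mp hd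
    have hd3 : (t : ℝ) * t < 2199023255552 + 2097152 * q := by exact_mod_cast hd2
    have hmle : (m : ℝ) ≤ (e 0 - 64) ^ 2 + (e 1 - 64) ^ 2 + (e 2 - 64) ^ 2 + (e 3 - 64) ^ 2 := by
      rw [hm, uo_dot4]
      have := uo_mine l0 h0 (e 0) a0 b0
      have := uo_mine l1 h1 (e 1) a1 b1
      have := uo_mine l2 h2 (e 2) a2 b2
      have := uo_mine l3 h3 (e 3) a3 b3
      linarith
    have ht1 := uo_sub (2048 * h) m
    push_cast at ht1
    have ht2 := uo_sub (1048576 + Nat.sub (2048 * h) m) q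
    push_cast at ht2
    have ht3 : (t : ℝ) = ((Nat.sub (1048576 + Nat.sub (2048 * h) m) q : ℕ) : ℝ) := by
      rw [ht]
      rfl
    have ht4 : 1048576 * (H + 1) - q ≤ (t : ℝ) := by
      rw [ht3]
      linarith
    have e1 : (2 : ℝ) * 1048576 ^ 2 = 2199023255552 := by norm_num
    have e3 : (2 : ℝ) * 1048576 = 2097152 := by norm_num
    exact uo_real2 1048576 (H + 1 - ‖ζ‖ ^ 2) (‖ζ‖ ^ 2) t q (by norm_num) (by linarith) hqle r3
      (by linarith) (by rw [e1, e3]; exact hd3)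

end Pool.Agent.Helper10.Qc
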